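import Mathlib

/-!
# Strict positivity of the logarithmic energy on the real line
-/

set_option autoImplicit false

open Filter Topology MeasureTheory
open scoped ENNReal ComplexConjugate

namespace Pool.Agent.WJ.Pos

/-! ### The circle -/

section circle

variable (κ : Measure (ℂ × ℂ)) [IsProbabilityMeasure κ]

lemma half_le {r : ℝ} (hr0 : 0 ≤ r) (hr1 : r < 1) {ζ : ℂ} (hζ : ‖ζ‖ = 1) :
    ‖1 - ζ‖ / 2 ≤ ‖1 - (r : ℂ) * ζ‖ := by
  have h1 : ‖1 - ζ‖ ≤ ‖1 - (r : ℂ) * ζ‖ + ‖(r : ℂ) * ζ - ζ‖ := by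
    calc ‖1 - ζ‖ = ‖(1 - (r : ℂ) * ζ) + ((r : ℂ) * ζ - ζ)‖ := by ring_nf
      _ ≤ _ := norm_add_le _ _
  have h2 : ‖(r : ℂ) * ζ - ζ‖ = 1 - r := by
    have : (r : ℂ) * ζ - ζ = ((r - 1 : ℝ) : ℂ) * ζ := by push_cast; ring
    rw [this, norm_mul, hζ, Complex.norm_real, Real.norm_eq_abs, abs_of_nonpos (by linarith)]
    ring
  have h3 : 1 - r ≤ ‖1 - (r : ℂ) * ζ‖ := by
    have := norm_sub_norm_le (1 : ℂ) ((r : ℂ) * ζ)
    rw [norm_mul, hζ, Complex.norm_real, Real.norm_of_nonneg hr0] at this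
    simpa using this
  linarith

/-- the radii -/
noncomputable def rr (k : ℕ) : ℝ := 1 - 1 / ((k : ℝ) + 2)

lemma rr_nonneg (k : ℕ) : 0 ≤ rr k := by
  have h0 : (0 : ℝ) ≤ k := Nat.cast_nonneg k
  have : (1 : ℝ) / ((k : ℝ) + 2) ≤ 1 := by
    rw [div_le_one (by positivity)]; linarith
  simp only [rr]; linarith

lemma rr_lt (k : ℕ) : rr k < 1 := by
  have : (0 : ℝ) < 1 / ((k : ℝ) + 2) := by positivity
  simp only [rr]; linarith

lemma tendsto_rr : Tendsto rr atTop (𝓝 1) := by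
  have h : Tendsto (fun k : ℕ => (1 : ℝ) / ((k : ℝ) + 2)) atTop (𝓝 0) := by
    apply Tendsto.div_atTop tendsto_const_nhds
    exact tendsto_atTop_add_const_right _ _ tendsto_natCast_atTop_atTop
  have h' := h.const_sub 1
  rw [sub_zero] at h'
  exact h'

/-- the logarithmic kernel with parameter -/
noncomputable def lk (r : ℝ) (p : ℂ × ℂ) : ℝ := Real.log ‖1 - (r : ℂ) * (conj p.1 * p.2)‖

lemma measurable_lk (r : ℝ) : Measurable (lk r) := by
  unfold lk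
  fun_prop

/-- the limit of the integrals of the kernels -/
lemma tendsto_lk (h1 : ∀ᵐ p ∂κ, ‖p.1‖ = 1) (h2 : ∀ᵐ p ∂κ, ‖p.2‖ = 1) (h3 : ∀ᵐ p ∂κ, p.1 ≠ p.2)
    (hint : Integrable (fun p : ℂ × ℂ => Real.log ‖p.1 - p.2‖) κ) :
    Tendsto (fun k : ℕ => ∫ p, lk (rr k) p ∂κ) atTop (𝓝 (∫ p, Real.log ‖p.1 - p.2‖ ∂κ)) := by
  have hkey : ∀ z w : ℂ, ‖z‖ = 1 → ‖1 - conj z * w‖ = ‖z - w‖ := by
    intro z w hz
    have h1 : z * conj z = 1 := by
      rw [RCLike.mul_conj, hz]; simp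
    calc ‖1 - conj z * w‖ = ‖z‖ * ‖1 - conj z * w‖ := by rw [hz, one_mul]
      _ = ‖z * (1 - conj z * w)‖ := (norm_mul _ _).symm
      _ = ‖z - w‖ := by rw [mul_sub, ← mul_assoc, h1, mul_one, one_mul]
  apply tendsto_integral_of_dominated_convergence (fun p => |Real.log ‖p.1 - p.2‖| + Real.log 2)
  · intro k
    exact (measurable_lk _).aestronglyMeasurable
  · exact hint.abs.add (integrable_const _)
  · intro k
    filter_upwards [h1, h2, h3] with p h1 h2 h3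
    unfold lk
    have hζ : ‖conj p.1 * p.2‖ = 1 := by rw [norm_mul, RCLike.norm_conj, h1, h2, one_mul]
    have hhalf := half_le (rr_nonneg k) (rr_lt k) hζ
    rw [hkey _ _ h1] at hhalf
    have hpos : 0 < ‖p.1 - p.2‖ := norm_pos_iff.mpr (sub_ne_zero.mpr h3)
    have hup : ‖1 - (rr k : ℂ) * (conj p.1 * p.2)‖ ≤ 2 := by
      calc ‖1 - (rr k : ℂ) * (conj p.1 * p.2)‖
          ≤ ‖(1 : ℂ)‖ + ‖(rr k : ℂ) * (conj p.1 * p.2)‖ := norm_sub_le _ _
        _ ≤ 1 + 1 := by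
            rw [norm_mul, hζ, Complex.norm_real, Real.norm_of_nonneg (rr_nonneg k)]
            simp only [norm_one, mul_one]
            linarith [rr_lt k]
        _ = 2 := by norm_num
    have hl1 := Real.log_le_log (by positivity) hhalf
    rw [Real.log_div hpos.ne' (by norm_num)] at hl1
    have hl2 := Real.log_le_log (by linarith) hup
    rw [Real.norm_eq_abs, abs_le]
    constructor
    · have := neg_abs_le (Real.log ‖p.1 - p.2‖)
      linarith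
    · have := abs_nonneg (Real.log ‖p.1 - p.2‖)
      linarith
  · filter_upwards [h1, h2, h3] with p h1 h2 h3
    unfold lk
    have hpos : 0 < ‖p.1 - p.2‖ := norm_pos_iff.mpr (sub_ne_zero.mpr h3)
    rw [← hkey _ _ h1]
    rw [← hkey _ _ h1] at hpos
    have : Tendsto (fun k => ‖1 - (rr k : ℂ) * (conj p.1 * p.2)‖) atTop
        (𝓝 ‖1 - ((1 : ℝ) : ℂ) * (conj p.1 * p.2)‖) := by
      apply Tendsto.norm
      apply Tendsto.const_sub
      apply Tendsto.mul_const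
      exact (Complex.continuous_ofReal.tendsto _).comp tendsto_rr
    simp only [Complex.ofReal_one, one_mul] at this
    exact this.log hpos.ne'

/-- the expansion of the kernel -/
lemma hasSum_lk (h1 : ∀ᵐ p ∂κ, ‖p.1‖ = 1) (h2 : ∀ᵐ p ∂κ, ‖p.2‖ = 1) {r : ℝ} (hr0 : 0 ≤ r)
    (hr1 : r < 1) :
    HasSum (fun n : ℕ => r ^ n / n * (∫ p, (conj p.1 * p.2) ^ n ∂κ).re) (-∫ p, lk r p ∂κ) := by
  have hsum : HasSum (fun n : ℕ => ∫ p, ((r : ℂ) * (conj p.1 * p.2)) ^ n / n ∂κ)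
      (∫ p, - Complex.log (1 - (r : ℂ) * (conj p.1 * p.2)) ∂κ) := by
    apply hasSum_integral_of_dominated_convergence (fun n _ => r ^ n)
    · intro n
      apply Measurable.aestronglyMeasurable
      fun_prop
    · intro n
      filter_upwards [h1, h2] with p h1 h2
      rw [norm_div, norm_pow, norm_mul, norm_mul, RCLike.norm_conj, h1, h2, Complex.norm_real,
        Real.norm_of_nonneg hr0, Complex.norm_natCast]
      simp only [mul_one]
      rcases Nat.eq_zero_or_pos n with rfl | hn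
      · simp
      · apply div_le_self (by positivity)
        exact_mod_cast hn
    · exact Filter.Eventually.of_forall fun _ => summable_geometric_of_lt_one hr0 hr1
    · exact integrable_const _
    · filter_upwards [h1, h2] with p h1 h2
      apply Complex.hasSum_taylorSeries_neg_log
      rw [norm_mul, norm_mul, RCLike.norm_conj, h1, h2, Complex.norm_real,
        Real.norm_of_nonneg hr0]
      simpa using hr1
  have hterm : ∀ n : ℕ, (∫ p, ((r : ℂ) * (conj p.1 * p.2)) ^ n / n ∂κ) =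
      ((r ^ n / n : ℝ) : ℂ) * ∫ p, (conj p.1 * p.2) ^ n ∂κ := by
    intro n
    rw [← integral_const_mul]
    congr 1
    funext p
    rw [mul_pow]
    push_cast
    ring
  simp_rw [hterm] at hsum
  have hre := Complex.hasSum_re hsum
  have hcb : Measurable (fun p : ℂ × ℂ => Complex.log (1 - (r : ℂ) * (conj p.1 * p.2))) := by
    fun_prop
  have hbd : Integrable (fun p : ℂ × ℂ => Complex.log (1 - (r : ℂ) * (conj p.1 * p.2))) κ := by
    refine Integrable.of_bound hcb.aestronglyMeasurable (1 - r)⁻¹ ?_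
    filter_upwards [h1, h2] with p h1 h2
    have hx : ‖(r : ℂ) * (conj p.1 * p.2)‖ = r := by
      rw [norm_mul, norm_mul, RCLike.norm_conj, h1, h2, Complex.norm_real,
        Real.norm_of_nonneg hr0]
      simp
    have h := Complex.hasSum_taylorSeries_neg_log (z := (r : ℂ) * (conj p.1 * p.2))
      (by rw [hx]; exact hr1)
    rw [← norm_neg, ← h.tsum_eq]
    apply tsum_of_norm_bounded (hasSum_geometric_of_lt_one hr0 hr1)
    intro n
    rw [norm_div, norm_pow, hx, Complex.norm_natCast]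
    rcases Nat.eq_zero_or_pos n with rfl | hn
    · simp
    · apply div_le_self (by positivity)
      exact_mod_cast hn
  rw [integral_neg, Complex.neg_re, ← RCLike.re_eq_complex_re, ← integral_re hbd] at hre
  have e1 : ∀ p : ℂ × ℂ, RCLike.re (Complex.log (1 - (r : ℂ) * (conj p.1 * p.2))) = lk r p := by
    intro p
    rw [RCLike.re_eq_complex_re, Complex.log_re]
    rfl
  simp only [e1] at hre
  have e2 : ∀ n : ℕ, RCLike.re (((r ^ n / n : ℝ) : ℂ) * ∫ p, (conj p.1 * p.2) ^ n ∂κ) =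
      r ^ n / n * (∫ p, (conj p.1 * p.2) ^ n ∂κ).re := fun n => Complex.re_ofReal_mul _ _
  simp only [e2] at hre
  exact hre

end circle

/-! ### Two measures on the circle -/

section two

variable (ρ₁ ρ₂ : Measure ℂ) [IsProbabilityMeasure ρ₁] [IsProbabilityMeasure ρ₂]

/-- the mixed energy -/
noncomputable def J (ρ σ : Measure ℂ) : ℝ := ∫ p, Real.log ‖p.1 - p.2‖ ∂(ρ.prod σ)

/-- the difference of the moments -/
noncomputable def De (n : ℕ) : ℂ := ∫ z, z ^ n ∂ρ₁ - ∫ z, z ^ n ∂ρ₂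

lemma moment_prod (ρ σ : Measure ℂ) [IsProbabilityMeasure ρ] [IsProbabilityMeasure σ] (n : ℕ) :
    ∫ p, (conj p.1 * p.2) ^ n ∂(ρ.prod σ) = conj (∫ z, z ^ n ∂ρ) * ∫ z, z ^ n ∂σ := by
  have : ∀ p : ℂ × ℂ, (conj p.1 * p.2) ^ n = conj (p.1 ^ n) * p.2 ^ n := by
    intro p; rw [mul_pow, map_pow]
  simp_rw [this]
  rw [integral_prod_mul (fun z => conj (z ^ n)) (fun z => z ^ n), integral_conj]

lemma disc (h1 : ∀ᵐ z ∂ρ₁, ‖z‖ = 1) (h2 : ∀ᵐ z ∂ρ₂, ‖z‖ = 1) {r : ℝ} (hr0 : 0 ≤ r)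
    (hr1 : r < 1) (S : Finset ℕ) :
    ∫ p, lk r p ∂(ρ₁.prod ρ₁) + ∫ p, lk r p ∂(ρ₂.prod ρ₂) - 2 * ∫ p, lk r p ∂(ρ₁.prod ρ₂) ≤
      - ∑ n ∈ S, r ^ n / n * ‖De ρ₁ ρ₂ n‖ ^ 2 := by
  have a11 := hasSum_lk (ρ₁.prod ρ₁) (Measure.quasiMeasurePreserving_fst.ae h1)
    (Measure.quasiMeasurePreserving_snd.ae h1) hr0 hr1
  have a22 := hasSum_lk (ρ₂.prod ρ₂) (Measure.quasiMeasurePreserving_fst.ae h2)
    (Measure.quasiMeasurePreserving_snd.ae h2) hr0 hr1
  have a12 := hasSum_lk (ρ₁.prod ρ₂) (Measure.quasiMeasurePreserving_fst.ae h1)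
    (Measure.quasiMeasurePreserving_snd.ae h2) hr0 hr1
  have h := (a11.add a22).sub (a12.mul_left 2)
  have e : ∀ n : ℕ, r ^ n / n * (∫ p, (conj p.1 * p.2) ^ n ∂(ρ₁.prod ρ₁)).re +
      r ^ n / n * (∫ p, (conj p.1 * p.2) ^ n ∂(ρ₂.prod ρ₂)).re -
      2 * (r ^ n / n * (∫ p, (conj p.1 * p.2) ^ n ∂(ρ₁.prod ρ₂)).re) =
      r ^ n / n * ‖De ρ₁ ρ₂ n‖ ^ 2 := by
    intro n
    rw [moment_prod, moment_prod, moment_prod, De, ← Complex.normSq_eq_norm_sq,
      Complex.normSq_apply, Complex.mul_re, Complex.mul_re, Complex.mul_re, Complex.conj_re,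
      Complex.conj_im, Complex.conj_re, Complex.conj_im, Complex.sub_re, Complex.sub_im]
    ring
  simp only [e] at h
  have h3 := sum_le_hasSum S (fun n _ => by positivity) h
  linarith

/-- Positivity on the circle. -/
lemma circle_pos (h1 : ∀ᵐ z ∂ρ₁, ‖z‖ = 1) (h2 : ∀ᵐ z ∂ρ₂, ‖z‖ = 1)
    (d11 : ∀ᵐ p ∂(ρ₁.prod ρ₁), p.1 ≠ p.2) (d22 : ∀ᵐ p ∂(ρ₂.prod ρ₂), p.1 ≠ p.2)
    (d12 : ∀ᵐ p ∂(ρ₁.prod ρ₂), p.1 ≠ p.2)
    (i11 : Integrable (fun p : ℂ × ℂ => Real.log ‖p.1 - p.2‖) (ρ₁.prod ρ₁))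
    (i22 : Integrable (fun p : ℂ × ℂ => Real.log ‖p.1 - p.2‖) (ρ₂.prod ρ₂))
    (i12 : Integrable (fun p : ℂ × ℂ => Real.log ‖p.1 - p.2‖) (ρ₁.prod ρ₂)) (S : Finset ℕ) :
    J ρ₁ ρ₁ + J ρ₂ ρ₂ - 2 * J ρ₁ ρ₂ ≤ - ∑ n ∈ S, 1 / (n : ℝ) * ‖De ρ₁ ρ₂ n‖ ^ 2 := by
  have t11 := tendsto_lk (ρ₁.prod ρ₁) (Measure.quasiMeasurePreserving_fst.ae h1)
    (Measure.quasiMeasurePreserving_snd.ae h1) d11 i11
  have t22 := tendsto_lk (ρ₂.prod ρ₂) (Measure.quasiMeasurePreserving_fst.ae h2)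
    (Measure.quasiMeasurePreserving_snd.ae h2) d22 i22
  have t12 := tendsto_lk (ρ₁.prod ρ₂) (Measure.quasiMeasurePreserving_fst.ae h1)
    (Measure.quasiMeasurePreserving_snd.ae h2) d12 i12
  have hl := (t11.add t22).sub (t12.const_mul 2)
  have hr : Tendsto (fun k => - ∑ n ∈ S, rr k ^ n / n * ‖De ρ₁ ρ₂ n‖ ^ 2) atTop
      (𝓝 (- ∑ n ∈ S, (1 : ℝ) ^ n / n * ‖De ρ₁ ρ₂ n‖ ^ 2)) := by
    apply Tendsto.neg
    apply tendsto_finsetSum
    intro n _
    exact ((tendsto_rr.pow n).div_const _).mul_const _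
  have h := le_of_tendsto_of_tendsto' hl hr fun k =>
    disc ρ₁ ρ₂ h1 h2 (rr_nonneg k) (rr_lt k) S
  simp only [one_pow] at h
  exact h

end two

/-! ### The real line -/

section line

/-- the map to the circle -/
noncomputable def ex (δ : ℝ) (x : ℝ) : ℂ := Complex.exp ((δ * x : ℝ) * Complex.I)

lemma continuous_ex (δ : ℝ) : Continuous (ex δ) := by
  unfold ex
  fun_prop

lemma norm_ex (δ x : ℝ) : ‖ex δ x‖ = 1 := Complex.norm_exp_ofReal_mul_I _

lemma ex_pow (δ x : ℝ) (n : ℕ) : ex δ x ^ n = Complex.exp ((((n : ℝ) * δ) * x : ℝ) * Complex.I) := by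
  unfold ex
  rw [← Complex.exp_nat_mul]
  congr 1
  push_cast
  ring

/-- the chord -/
lemma norm_ex_sub (δ x y : ℝ) : ‖ex δ x - ex δ y‖ = 2 * |Real.sin (δ * (x - y) / 2)| := by
  have h : ex δ x - ex δ y = ex δ y * (Complex.exp (Complex.I * ((δ * (x - y) : ℝ) : ℂ)) - 1) := by
    unfold ex
    rw [mul_sub, ← Complex.exp_add, mul_one]
    congr 2
    push_cast
    ring
  rw [h, norm_mul, norm_ex, one_mul, Complex.norm_exp_I_mul_ofReal_sub_one, norm_mul,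
    Real.norm_eq_abs, Real.norm_eq_abs]
  norm_num

/-- the error -/
lemma log_sin_bound {v : ℝ} (hv : v ≠ 0) (hv1 : |v| ≤ 1) :
    |Real.log (|Real.sin v|) - Real.log (|v|)| ≤ v ^ 2 := by
  wlog hpos : 0 < v generalizing v
  · have hneg : 0 < -v := by
      rcases lt_or_gt_of_ne hv with h | h
      · linarith
      · exact absurd h hpos
    have := this (v := -v) (neg_ne_zero.2 hv) (by rwa [abs_neg]) hneg
    rw [Real.sin_neg, abs_neg, abs_neg, neg_sq] at this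
    exact this
  rw [abs_of_pos hpos] at hv1
  have h1 : Real.sin v < v := Real.sin_lt hpos
  have h2 : v - v ^ 3 / 4 < Real.sin v := by
    have h0 := Real.sin_gt_sub_cube hpos
    nlinarith [pow_pos hpos 3]
  have hs : 0 < Real.sin v := by nlinarith [pow_pos hpos 3, mul_pos hpos hpos]
  rw [abs_of_pos hpos, abs_of_pos hs, abs_of_nonpos (by
    linarith [Real.log_le_log hs h1.le])]
  have h3 : Real.log v - Real.log (Real.sin v) = Real.log (v / Real.sin v) := by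
    rw [Real.log_div hpos.ne' hs.ne']
  have h4 : v / Real.sin v ≤ 1 / (1 - v ^ 2 / 4) := by
    have h5 : 0 < 1 - v ^ 2 / 4 := by nlinarith
    rw [div_le_div_iff₀ hs h5]
    nlinarith
  have h5 : Real.log (v / Real.sin v) ≤ v / Real.sin v - 1 :=
    Real.log_le_sub_one_of_pos (div_pos hpos hs)
  have h6 : 1 / (1 - v ^ 2 / 4) - 1 ≤ v ^ 2 := by
    have h5 : 0 < 1 - v ^ 2 / 4 := by nlinarith
    rw [sub_le_iff_le_add, div_le_iff₀ h5]
    nlinarith [mul_nonneg hpos.le hpos.le]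
  linarith

variable (ρ₁ ρ₂ : Measure ℝ) [IsProbabilityMeasure ρ₁] [IsProbabilityMeasure ρ₂]

/-- the mixed energy on the line -/
noncomputable def Jr (ρ σ : Measure ℝ) : ℝ := ∫ p, Real.log (|p.1 - p.2|) ∂(ρ.prod σ)

lemma chord_bound {δ R x y : ℝ} (hδ : 0 < δ) (hR : δ * R ≤ 1) (hx : |x| ≤ R) (hy : |y| ≤ R)
    (hxy : x ≠ y) : ex δ x ≠ ex δ y ∧
      |Real.log ‖ex δ x - ex δ y‖ - (Real.log δ + Real.log (|x - y|))| ≤ (δ * R) ^ 2 := by
  have hv : δ * (x - y) / 2 ≠ 0 := by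
    have := sub_ne_zero.2 hxy
    positivity
  have hxy2 : |x - y| ≤ 2 * R := by
    have := abs_sub x y
    linarith
  have hvR : |δ * (x - y) / 2| ≤ δ * R := by
    rw [abs_div, abs_mul, abs_of_pos hδ, abs_two, div_le_iff₀ two_pos]
    nlinarith
  have hv1 : |δ * (x - y) / 2| ≤ 1 := hvR.trans hR
  have hb := log_sin_bound hv hv1
  have hsin : Real.sin (δ * (x - y) / 2) ≠ 0 := by
    intro h0
    have h1 := abs_le.1 hv1
    have hpi := Real.pi_gt_three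
    rw [Real.sin_eq_zero_iff_of_lt_of_lt (by linarith) (by linarith)] at h0
    exact hv h0
  have hsp : 0 < |Real.sin (δ * (x - y) / 2)| := abs_pos.2 hsin
  constructor
  · intro h
    have h1 := norm_ex_sub δ x y
    rw [h, sub_self, norm_zero] at h1
    linarith
  · have hd : 0 < |x - y| := abs_pos.2 (sub_ne_zero.2 hxy)
    have e1 : Real.log ‖ex δ x - ex δ y‖ - (Real.log δ + Real.log (|x - y|)) =
        Real.log (|Real.sin (δ * (x - y) / 2)|) - Real.log (|δ * (x - y) / 2|) := by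
      rw [norm_ex_sub, Real.log_mul two_ne_zero hsp.ne', abs_div, abs_mul, abs_of_pos hδ, abs_two,
        Real.log_div (by positivity) two_ne_zero, Real.log_mul hδ.ne' hd.ne']
      ring
    rw [e1]
    refine hb.trans ?_
    rw [← sq_abs]
    exact pow_le_pow_left₀ (abs_nonneg _) hvR 2

lemma pair_bound {δ R : ℝ} (hδ : 0 < δ) (hR : δ * R ≤ 1) (h1 : ∀ᵐ x ∂ρ₁, |x| ≤ R)
    (h2 : ∀ᵐ x ∂ρ₂, |x| ≤ R) (d : ∀ᵐ p ∂(ρ₁.prod ρ₂), p.1 ≠ p.2)
    (i : Integrable (fun p : ℝ × ℝ => Real.log (|p.1 - p.2|)) (ρ₁.prod ρ₂)) :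
    (∀ᵐ p ∂((ρ₁.map (ex δ)).prod (ρ₂.map (ex δ))), p.1 ≠ p.2) ∧
    Integrable (fun p : ℂ × ℂ => Real.log ‖p.1 - p.2‖)
      ((ρ₁.map (ex δ)).prod (ρ₂.map (ex δ))) ∧
    |J (ρ₁.map (ex δ)) (ρ₂.map (ex δ)) - (Real.log δ + Jr ρ₁ ρ₂)| ≤ (δ * R) ^ 2 := by
  have hm := (continuous_ex δ).measurable
  have hmm : Measurable (Prod.map (ex δ) (ex δ)) := hm.prodMap hm
  have hprod : (ρ₁.map (ex δ)).prod (ρ₂.map (ex δ)) = (ρ₁.prod ρ₂).map (Prod.map (ex δ) (ex δ)) :=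
    Measure.map_prod_map ρ₁ ρ₂ hm hm
  have h1' : ∀ᵐ p ∂(ρ₁.prod ρ₂), |p.1| ≤ R := Measure.quasiMeasurePreserving_fst.ae h1
  have h2' : ∀ᵐ p ∂(ρ₁.prod ρ₂), |p.2| ≤ R := Measure.quasiMeasurePreserving_snd.ae h2
  have hae : ∀ᵐ p ∂(ρ₁.prod ρ₂), ex δ p.1 ≠ ex δ p.2 ∧
      |Real.log ‖ex δ p.1 - ex δ p.2‖ - (Real.log δ + Real.log (|p.1 - p.2|))| ≤ (δ * R) ^ 2 := by
    filter_upwards [h1', h2', d] with p h1 h2 h3
    exact chord_bound hδ hR h1 h2 h3
  have hmk : Measurable fun p : ℂ × ℂ => Real.log ‖p.1 - p.2‖ := by fun_prop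
  have hmr : Measurable fun p : ℝ × ℝ => Real.log ‖ex δ p.1 - ex δ p.2‖ := hmk.comp hmm
  have hc : Integrable (fun p : ℝ × ℝ => Real.log δ + Real.log (|p.1 - p.2|)) (ρ₁.prod ρ₂) :=
    (integrable_const _).add i
  have hdiff : Integrable (fun p : ℝ × ℝ => Real.log ‖ex δ p.1 - ex δ p.2‖ -
      (Real.log δ + Real.log (|p.1 - p.2|))) (ρ₁.prod ρ₂) := by
    refine Integrable.of_bound (hmr.aestronglyMeasurable.sub hc.aestronglyMeasurable)
      ((δ * R) ^ 2) ?_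
    filter_upwards [hae] with p hp
    exact hp.2
  have hi : Integrable (fun p : ℝ × ℝ => Real.log ‖ex δ p.1 - ex δ p.2‖) (ρ₁.prod ρ₂) := by
    have := hdiff.add hc
    refine this.congr (Eventually.of_forall fun p => ?_)
    simp
  refine ⟨?_, ?_, ?_⟩
  · have hset : MeasurableSet {p : ℂ × ℂ | p.1 ≠ p.2} :=
      (isClosed_eq continuous_fst continuous_snd).measurableSet.compl
    rw [hprod, ae_map_iff hmm.aemeasurable hset]
    filter_upwards [hae] with p hp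
    exact hp.1
  · rw [hprod, integrable_map_measure hmk.aestronglyMeasurable hmm.aemeasurable]
    exact hi
  · have e1 : J (ρ₁.map (ex δ)) (ρ₂.map (ex δ)) =
        ∫ p, Real.log ‖ex δ p.1 - ex δ p.2‖ ∂(ρ₁.prod ρ₂) := by
      unfold J
      rw [hprod, integral_map hmm.aemeasurable hmk.aestronglyMeasurable]
      rfl
    have e2 : Real.log δ + Jr ρ₁ ρ₂ =
        ∫ p, (Real.log δ + Real.log (|p.1 - p.2|)) ∂(ρ₁.prod ρ₂) := by
      rw [integral_add (integrable_const _) i]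
      simp [Jr]
    rw [e1, e2, ← integral_sub hi hc]
    have h3 := norm_integral_le_of_norm_le_const (μ := ρ₁.prod ρ₂) (C := (δ * R) ^ 2)
      (f := fun p : ℝ × ℝ => Real.log ‖ex δ p.1 - ex δ p.2‖ -
        (Real.log δ + Real.log (|p.1 - p.2|))) (by
        filter_upwards [hae] with p hp
        exact hp.2)
    simpa using h3

lemma ae_circle (ρ : Measure ℝ) (δ : ℝ) : ∀ᵐ z ∂(ρ.map (ex δ)), ‖z‖ = 1 := by
  rw [ae_map_iff (continuous_ex δ).measurable.aemeasurable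
    (isClosed_eq continuous_norm continuous_const).measurableSet]
  exact Eventually.of_forall fun x => norm_ex δ x

lemma moment_map (ρ : Measure ℝ) (δ : ℝ) (n : ℕ) :
    ∫ z, z ^ n ∂(ρ.map (ex δ)) = charFun ρ (n * δ) := by
  rw [integral_map (continuous_ex δ).measurable.aemeasurable (by fun_prop), charFun_apply_real]
  refine integral_congr_ae (Eventually.of_forall fun x => ?_)
  simp only [ex_pow]
  congr 1
  push_cast
  ring

lemma real_bound {δ R : ℝ} (hδ : 0 < δ) (hR : δ * R ≤ 1) (h1 : ∀ᵐ x ∂ρ₁, |x| ≤ R)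
    (h2 : ∀ᵐ x ∂ρ₂, |x| ≤ R) (d11 : ∀ᵐ p ∂(ρ₁.prod ρ₁), p.1 ≠ p.2)
    (d22 : ∀ᵐ p ∂(ρ₂.prod ρ₂), p.1 ≠ p.2) (d12 : ∀ᵐ p ∂(ρ₁.prod ρ₂), p.1 ≠ p.2)
    (i11 : Integrable (fun p : ℝ × ℝ => Real.log (|p.1 - p.2|)) (ρ₁.prod ρ₁))
    (i22 : Integrable (fun p : ℝ × ℝ => Real.log (|p.1 - p.2|)) (ρ₂.prod ρ₂))
    (i12 : Integrable (fun p : ℝ × ℝ => Real.log (|p.1 - p.2|)) (ρ₁.prod ρ₂)) (S : Finset ℕ) :
    Jr ρ₁ ρ₁ + Jr ρ₂ ρ₂ - 2 * Jr ρ₁ ρ₂ ≤ 4 * (δ * R) ^ 2 -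
      ∑ n ∈ S, 1 / (n : ℝ) * ‖charFun ρ₁ (n * δ) - charFun ρ₂ (n * δ)‖ ^ 2 := by
  have hm := (continuous_ex δ).measurable.aemeasurable (μ := ρ₁)
  have hm2 := (continuous_ex δ).measurable.aemeasurable (μ := ρ₂)
  have p1 : IsProbabilityMeasure (ρ₁.map (ex δ)) := Measure.isProbabilityMeasure_map hm
  have p2 : IsProbabilityMeasure (ρ₂.map (ex δ)) := Measure.isProbabilityMeasure_map hm2
  obtain ⟨a11, b11, c11⟩ := pair_bound ρ₁ ρ₁ hδ hR h1 h1 d11 i11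
  obtain ⟨a22, b22, c22⟩ := pair_bound ρ₂ ρ₂ hδ hR h2 h2 d22 i22
  obtain ⟨a12, b12, c12⟩ := pair_bound ρ₁ ρ₂ hδ hR h1 h2 d12 i12
  have h := circle_pos (ρ₁.map (ex δ)) (ρ₂.map (ex δ)) (ae_circle ρ₁ δ) (ae_circle ρ₂ δ)
    a11 a22 a12 b11 b22 b12 S
  have e : ∀ n, De (ρ₁.map (ex δ)) (ρ₂.map (ex δ)) n =
      charFun ρ₁ (n * δ) - charFun ρ₂ (n * δ) := by
    intro n
    rw [De, moment_map, moment_map]
  simp only [e] at h
  rw [abs_le] at c11 c22 c12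
  linarith [c11.1, c22.1, c12.2]

/-- The logarithmic energy is strictly positive on the differences of probability measures. -/
theorem pos_real {R : ℝ} (h1 : ∀ᵐ x ∂ρ₁, |x| ≤ R)
    (h2 : ∀ᵐ x ∂ρ₂, |x| ≤ R) (d11 : ∀ᵐ p ∂(ρ₁.prod ρ₁), p.1 ≠ p.2)
    (d22 : ∀ᵐ p ∂(ρ₂.prod ρ₂), p.1 ≠ p.2) (d12 : ∀ᵐ p ∂(ρ₁.prod ρ₂), p.1 ≠ p.2)
    (i11 : Integrable (fun p : ℝ × ℝ => Real.log (|p.1 - p.2|)) (ρ₁.prod ρ₁))
    (i22 : Integrable (fun p : ℝ × ℝ => Real.log (|p.1 - p.2|)) (ρ₂.prod ρ₂))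
    (i12 : Integrable (fun p : ℝ × ℝ => Real.log (|p.1 - p.2|)) (ρ₁.prod ρ₂)) :
    Jr ρ₁ ρ₁ + Jr ρ₂ ρ₂ ≤ 2 * Jr ρ₁ ρ₂ ∧
      (Jr ρ₁ ρ₁ + Jr ρ₂ ρ₂ = 2 * Jr ρ₁ ρ₂ → ρ₁ = ρ₂) := by
  obtain ⟨R', hR', hR1⟩ : ∃ R' : ℝ, R ≤ R' ∧ 1 ≤ R' := ⟨max R 1, le_max_left _ _, le_max_right _ _⟩
  have h1' : ∀ᵐ x ∂ρ₁, |x| ≤ R' := h1.mono fun x hx => hx.trans hR'
  have h2' : ∀ᵐ x ∂ρ₂, |x| ≤ R' := h2.mono fun x hx => hx.trans hR'
  have hR0 : 0 < R' := by linarith
  have key := fun (δ : ℝ) (hδ : 0 < δ) (hδR : δ * R' ≤ 1) (S : Finset ℕ) =>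
    real_bound ρ₁ ρ₂ hδ hδR h1' h2' d11 d22 d12 i11 i22 i12 S
  constructor
  · -- let `δ` tend to zero
    have hlim : Tendsto (fun M : ℕ => 4 * ((1 / ((M : ℝ) + 1) / R') * R') ^ 2) atTop (𝓝 0) := by
      have h3 := tendsto_one_div_add_atTop_nhds_zero_nat (𝕜 := ℝ)
      have h4 := (((h3.div_const R').mul_const R').pow 2).const_mul 4
      simpa using h4
    have h5 : ∀ M : ℕ, Jr ρ₁ ρ₁ + Jr ρ₂ ρ₂ - 2 * Jr ρ₁ ρ₂ ≤
        4 * ((1 / ((M : ℝ) + 1) / R') * R') ^ 2 := by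
      intro M
      have hM : (0 : ℝ) < (M : ℝ) + 1 := by positivity
      have h6 := key (1 / ((M : ℝ) + 1) / R') (by positivity) (by
        rw [div_mul_cancel₀ _ hR0.ne', div_le_one hM]
        linarith [Nat.cast_nonneg (α := ℝ) M]) ∅
      rw [Finset.sum_empty, sub_zero] at h6
      exact h6
    have h7 := ge_of_tendsto' hlim h5
    linarith
  · intro heq
    apply Measure.ext_of_charFun
    by_contra hne
    -- a point where the characteristic functions differ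
    obtain ⟨t, ht⟩ : ∃ t, charFun ρ₁ t ≠ charFun ρ₂ t := by
      by_contra hcon
      push Not at hcon
      exact hne (funext hcon)
    obtain ⟨t₀, ht0, ht⟩ : ∃ t₀ : ℝ, 0 < t₀ ∧ charFun ρ₁ t₀ ≠ charFun ρ₂ t₀ := by
      rcases lt_trichotomy t 0 with h | h | h
      · refine ⟨-t, by linarith, ?_⟩
        rw [charFun_neg, charFun_neg]
        intro h3
        exact ht ((starRingEnd ℂ).injective h3)
      · exfalso
        apply ht
        rw [h]
        simp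
      · exact ⟨t, h, ht⟩
    let g : ℝ → ℝ := fun t => ‖charFun ρ₁ t - charFun ρ₂ t‖ ^ 2
    have hg : Continuous g := by
      have c1 : Continuous (charFun ρ₁) := continuous_charFun
      have c2 : Continuous (charFun ρ₂) := continuous_charFun
      exact (c1.sub c2).norm.pow 2
    have hg0 : 0 < g t₀ := by
      have : 0 < ‖charFun ρ₁ t₀ - charFun ρ₂ t₀‖ := norm_pos_iff.2 (sub_ne_zero.2 ht)
      positivity
    obtain ⟨η, hη, hball⟩ : ∃ η > 0, ∀ t, dist t t₀ < η → g t₀ / 2 < g t := by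
      have h3 := Metric.continuousAt_iff.1 (hg.continuousAt (x := t₀)) (g t₀ / 2) (by linarith)
      obtain ⟨η, hη, h4⟩ := h3
      refine ⟨η, hη, fun t ht => ?_⟩
      have h5 := h4 ht
      rw [Real.dist_eq, abs_lt] at h5
      linarith
    -- choose `η` smaller
    obtain ⟨θ, hθ, hθη, hθt⟩ : ∃ θ > 0, θ < η ∧ θ ≤ t₀ := by
      refine ⟨min (η / 2) t₀, lt_min (by linarith) ht0, ?_, min_le_right _ _⟩
      exact (min_le_left _ _).trans_lt (by linarith)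
    -- `δ = t₀ / M`
    have hM : ∀ M : ℕ, 0 < M → t₀ / M * R' ≤ 1 →
        θ * (g t₀ / 2) / (2 * t₀) ≤ 4 * (t₀ / M * R') ^ 2 := by
      intro M hM0 hMR
      have hMr : (0 : ℝ) < M := by exact_mod_cast hM0
      set K := ⌊θ * M / t₀⌋₊ with hK
      have hK1 : (K : ℝ) ≤ θ * M / t₀ := Nat.floor_le (by positivity)
      have hK2 : θ * M / t₀ < K + 1 := Nat.lt_floor_add_one _
      have h3 := key (t₀ / M) (by positivity) hMR (Finset.Icc M (M + K))
      rw [heq, sub_self] at h3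
      have h4 : ∀ n ∈ Finset.Icc M (M + K), 1 / (2 * (M : ℝ)) * (g t₀ / 2) ≤
          1 / (n : ℝ) * ‖charFun ρ₁ (n * (t₀ / M)) - charFun ρ₂ (n * (t₀ / M))‖ ^ 2 := by
        intro n hn
        rw [Finset.mem_Icc] at hn
        have hn1 : (M : ℝ) ≤ n := by exact_mod_cast hn.1
        have hn2 : (n : ℝ) ≤ M + K := by exact_mod_cast hn.2
        have hn0 : (0 : ℝ) < n := by linarith
        have hKM : (K : ℝ) ≤ M := by
          refine hK1.trans ?_
          rw [div_le_iff₀ ht0]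
          nlinarith
        have h5 : g t₀ / 2 ≤ g (n * (t₀ / M)) := by
          apply (hball _ _).le
          rw [Real.dist_eq]
          have e1 : (n : ℝ) * (t₀ / M) - t₀ = (n - M) * (t₀ / M) := by
            field_simp
          rw [e1, abs_of_nonneg (by have : 0 ≤ (n : ℝ) - M := by linarith
                                    positivity)]
          calc ((n : ℝ) - M) * (t₀ / M) ≤ K * (t₀ / M) := by
                apply mul_le_mul_of_nonneg_right (by linarith) (by positivity)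
            _ ≤ (θ * M / t₀) * (t₀ / M) := by gcongr
            _ = θ := by field_simp
            _ < η := hθη
        have h6 : 1 / (2 * (M : ℝ)) ≤ 1 / (n : ℝ) :=
          one_div_le_one_div_of_le hn0 (by linarith)
        exact mul_le_mul h6 h5 (by positivity) (by positivity)
      have h7 := Finset.card_nsmul_le_sum _ _ _ h4
      rw [Nat.card_Icc, nsmul_eq_mul] at h7
      have h8 : ((M + K + 1 - M : ℕ) : ℝ) = K + 1 := by
        have : M + K + 1 - M = K + 1 := by omega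
        rw [this]
        push_cast
        ring
      rw [h8] at h7
      have h9 : θ * (g t₀ / 2) / (2 * t₀) = (θ * M / t₀) * (1 / (2 * (M : ℝ)) * (g t₀ / 2)) := by
        field_simp
      rw [h9]
      have h10 : (θ * M / t₀) * (1 / (2 * (M : ℝ)) * (g t₀ / 2)) ≤
          (K + 1) * (1 / (2 * (M : ℝ)) * (g t₀ / 2)) :=
        mul_le_mul_of_nonneg_right hK2.le (by positivity)
      linarith
    -- contradiction
    have hlim : Tendsto (fun M : ℕ => 4 * (t₀ / (M : ℝ) * R') ^ 2) atTop (𝓝 0) := by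
      have h3 : Tendsto (fun M : ℕ => t₀ / (M : ℝ)) atTop (𝓝 0) :=
        tendsto_const_nhds.div_atTop tendsto_natCast_atTop_atTop
      have h4 := ((h3.mul_const R').pow 2).const_mul 4
      simpa using h4
    have hlim2 : Tendsto (fun M : ℕ => t₀ / (M : ℝ) * R') atTop (𝓝 0) := by
      have h3 : Tendsto (fun M : ℕ => t₀ / (M : ℝ)) atTop (𝓝 0) :=
        tendsto_const_nhds.div_atTop tendsto_natCast_atTop_atTop
      have h4 := h3.mul_const R'
      simpa using h4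
    have hpos : 0 < θ * (g t₀ / 2) / (2 * t₀) := by positivity
    have hev := (hlim.eventually_lt_const hpos).and
      ((hlim2.eventually_le_const (show (0 : ℝ) < 1 by norm_num)).and (eventually_gt_atTop 0))
    obtain ⟨M, hM1, hM2, hM3⟩ := hev.exists
    exact absurd (hM M hM3 hM2) (not_le.2 hM1)

end line

/-! ### The complex plane -/

section plane

variable (ρ₁ ρ₂ : Measure ℂ) [IsProbabilityMeasure ρ₁] [IsProbabilityMeasure ρ₂]

lemma map_re {ρ : Measure ℂ} (h : ∀ᵐ z ∂ρ, z.im = 0) :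
    (ρ.map Complex.re).map (fun x : ℝ => (x : ℂ)) = ρ := by
  rw [Measure.map_map Complex.measurable_ofReal Complex.measurable_re]
  have h1 : (fun x : ℝ => (x : ℂ)) ∘ Complex.re =ᵐ[ρ] id := by
    filter_upwards [h] with z hz
    apply Complex.ext
    · simp
    · simp [hz]
  rw [Measure.map_congr h1, Measure.map_id]

/-- The logarithmic energy is strictly positive on the differences of probability measures which
are carried by a bounded subset of the real line. -/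
theorem pos_strict {R : ℝ} (h1 : ∀ᵐ z ∂ρ₁, z.im = 0 ∧ |z.re| ≤ R)
    (h2 : ∀ᵐ z ∂ρ₂, z.im = 0 ∧ |z.re| ≤ R) (d11 : ∀ᵐ p ∂(ρ₁.prod ρ₁), p.1 ≠ p.2)
    (d22 : ∀ᵐ p ∂(ρ₂.prod ρ₂), p.1 ≠ p.2) (d12 : ∀ᵐ p ∂(ρ₁.prod ρ₂), p.1 ≠ p.2)
    (i11 : Integrable (fun p : ℂ × ℂ => Real.log ‖p.1 - p.2‖) (ρ₁.prod ρ₁))
    (i22 : Integrable (fun p : ℂ × ℂ => Real.log ‖p.1 - p.2‖) (ρ₂.prod ρ₂))
    (i12 : Integrable (fun p : ℂ × ℂ => Real.log ‖p.1 - p.2‖) (ρ₁.prod ρ₂)) :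
    J ρ₁ ρ₁ + J ρ₂ ρ₂ ≤ 2 * J ρ₁ ρ₂ ∧ (J ρ₁ ρ₁ + J ρ₂ ρ₂ = 2 * J ρ₁ ρ₂ → ρ₁ = ρ₂) := by
  have hm := Complex.measurable_re
  have q1 : IsProbabilityMeasure (ρ₁.map Complex.re) := Measure.isProbabilityMeasure_map hm.aemeasurable
  have q2 : IsProbabilityMeasure (ρ₂.map Complex.re) := Measure.isProbabilityMeasure_map hm.aemeasurable
  have hmm : Measurable (Prod.map Complex.re Complex.re) := hm.prodMap hm
  have hmk : Measurable fun p : ℝ × ℝ => Real.log (|p.1 - p.2|) := by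
    have : Measurable fun p : ℝ × ℝ => |p.1 - p.2| := (measurable_fst.sub measurable_snd).abs
    exact Real.measurable_log.comp this
  have hset : MeasurableSet {p : ℝ × ℝ | p.1 ≠ p.2} :=
    (isClosed_eq continuous_fst continuous_snd).measurableSet.compl
  have e : ∀ z w : ℂ, z.im = 0 → w.im = 0 → ‖z - w‖ = |z.re - w.re| := by
    intro z w hz hw
    have h3 : z - w = ((z.re - w.re : ℝ) : ℂ) := by
      apply Complex.ext
      · simp
      · simp [hz, hw]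
    rw [h3, Complex.norm_real, Real.norm_eq_abs]
  have main : ∀ (ρ σ : Measure ℂ) [IsProbabilityMeasure ρ] [IsProbabilityMeasure σ],
      (∀ᵐ z ∂ρ, z.im = 0 ∧ |z.re| ≤ R) → (∀ᵐ z ∂σ, z.im = 0 ∧ |z.re| ≤ R) →
      (∀ᵐ p ∂(ρ.prod σ), p.1 ≠ p.2) →
      Integrable (fun p : ℂ × ℂ => Real.log ‖p.1 - p.2‖) (ρ.prod σ) →
      (∀ᵐ p ∂((ρ.map Complex.re).prod (σ.map Complex.re)), p.1 ≠ p.2) ∧
      Integrable (fun p : ℝ × ℝ => Real.log (|p.1 - p.2|))
        ((ρ.map Complex.re).prod (σ.map Complex.re)) ∧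
      J ρ σ = Jr (ρ.map Complex.re) (σ.map Complex.re) := by
    intro ρ σ _ _ hρ hσ hd hi
    have hprod : (ρ.map Complex.re).prod (σ.map Complex.re) =
        (ρ.prod σ).map (Prod.map Complex.re Complex.re) := Measure.map_prod_map ρ σ hm hm
    have h1' : ∀ᵐ p ∂(ρ.prod σ), p.1.im = 0 ∧ |p.1.re| ≤ R :=
      Measure.quasiMeasurePreserving_fst.ae hρ
    have h2' : ∀ᵐ p ∂(ρ.prod σ), p.2.im = 0 ∧ |p.2.re| ≤ R :=
      Measure.quasiMeasurePreserving_snd.ae hσ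
    have hlog : (fun p : ℂ × ℂ => Real.log ‖p.1 - p.2‖) =ᵐ[ρ.prod σ]
        fun p => Real.log (|p.1.re - p.2.re|) := by
      filter_upwards [h1', h2'] with p ha hb
      rw [e _ _ ha.1 hb.1]
    refine ⟨?_, ?_, ?_⟩
    · rw [hprod, ae_map_iff hmm.aemeasurable hset]
      filter_upwards [h1', h2', hd] with p ha hb hp
      intro h3
      apply hp
      apply Complex.ext h3
      rw [ha.1, hb.1]
    · rw [hprod, integrable_map_measure hmk.aestronglyMeasurable hmm.aemeasurable]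
      exact hi.congr hlog
    · unfold J Jr
      rw [hprod, integral_map hmm.aemeasurable hmk.aestronglyMeasurable]
      exact integral_congr_ae hlog
  obtain ⟨a11, b11, c11⟩ := main ρ₁ ρ₁ h1 h1 d11 i11
  obtain ⟨a22, b22, c22⟩ := main ρ₂ ρ₂ h2 h2 d22 i22
  obtain ⟨a12, b12, c12⟩ := main ρ₁ ρ₂ h1 h2 d12 i12
  have hb : ∀ ρ : Measure ℂ, (∀ᵐ z ∂ρ, z.im = 0 ∧ |z.re| ≤ R) →
      ∀ᵐ x ∂(ρ.map Complex.re), |x| ≤ R := by
    intro ρ hρ
    have hs : MeasurableSet {x : ℝ | |x| ≤ R} :=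
      (isClosed_le continuous_abs continuous_const).measurableSet
    rw [ae_map_iff hm.aemeasurable hs]
    exact hρ.mono fun z hz => hz.2
  obtain ⟨k1, k2⟩ := pos_real (ρ₁.map Complex.re) (ρ₂.map Complex.re) (hb ρ₁ h1) (hb ρ₂ h2)
    a11 a22 a12 b11 b22 b12
  rw [c11, c22, c12]
  refine ⟨k1, fun h => ?_⟩
  have h3 := k2 h
  rw [← map_re (h1.mono fun z hz => hz.1), ← map_re (h2.mono fun z hz => hz.1), h3]

end plane

end Pool.Agent.WJ.Pos
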