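import Mathlib

/-!
# A Cantor set of nested square roots: the coding
-/

set_option autoImplicit false

open Filter Topology

namespace Pool.Agent.WJ

/-- the codes -/
abbrev Om : Type := ℕ → Bool

/-- the sign -/
def sg (e : Bool) : ℝ := if e then 1 else -1

lemma sg_sq (e : Bool) : sg e ^ 2 = 1 := by cases e <;> simp [sg]

lemma abs_sg (e : Bool) : |sg e| = 1 := by cases e <;> simp [sg]

/-- the parameters -/
noncomputable def cc (s : ℕ) : ℝ := 64 * 4 ^ s

/-- the bounds -/
noncomputable def RR (s : ℕ) : ℝ := 10 * 2 ^ s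

/-- the shift -/
def sh (b : Om) : Om := fun k => b (k + 1)

lemma continuous_sh : Continuous sh := by
  unfold sh
  fun_prop

/-- the truncated nested roots -/
noncomputable def Xt : ℕ → ℕ → Om → ℝ
  | 0, _, _ => 0
  | (m + 1), s, b => sg (b 0) * √(cc s + Xt m (s + 1) (sh b))

lemma two_le_four (s : ℕ) : (2 : ℝ) ^ s ≤ 4 ^ s := pow_le_pow_left₀ (by norm_num) (by norm_num) s

lemma one_le_two_pow (s : ℕ) : (1 : ℝ) ≤ 2 ^ s := one_le_pow₀ (by norm_num)

lemma four_eq (s : ℕ) : (4 : ℝ) ^ s = (2 ^ s) ^ 2 := by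
  rw [← pow_mul, mul_comm, pow_mul]
  norm_num

lemma RR_pos (s : ℕ) : 0 < RR s := by unfold RR; positivity

lemma upper {s : ℕ} {y : ℝ} (hy : |y| ≤ RR (s + 1)) : √(cc s + y) ≤ RR s := by
  apply Real.sqrt_le_iff.2
  refine ⟨(RR_pos s).le, ?_⟩
  have h1 := (abs_le.1 hy).2
  have h2 := two_le_four s
  have h3 := four_eq s
  unfold RR cc at *
  rw [pow_succ] at h1
  nlinarith

lemma lower' {s : ℕ} {y : ℝ} (hy : |y| ≤ RR (s + 1)) : 44 * 4 ^ s ≤ cc s + y := by
  have h1 := (abs_le.1 hy).1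
  have h2 := two_le_four s
  unfold RR cc at *
  rw [pow_succ] at h1
  linarith

lemma lower {s : ℕ} {y : ℝ} (hy : |y| ≤ RR (s + 1)) : 6 * 2 ^ s ≤ √(cc s + y) := by
  apply Real.le_sqrt_of_sq_le
  have h1 := lower' hy
  rw [four_eq] at h1
  nlinarith [sq_nonneg ((2 : ℝ) ^ s)]

lemma abs_Xt_le (m : ℕ) : ∀ s b, |Xt m s b| ≤ RR s := by
  induction m with
  | zero => intro s b; rw [Xt, abs_zero]; exact (RR_pos s).le
  | succ m ih =>
    intro s b
    rw [Xt, abs_mul, abs_sg, one_mul, abs_of_nonneg (Real.sqrt_nonneg _)]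
    exact upper (ih (s + 1) (sh b))

lemma sqrt_diff {s : ℕ} {y z : ℝ} (hy : |y| ≤ RR (s + 1)) (hz : |z| ≤ RR (s + 1)) :
    |√(cc s + y) - √(cc s + z)| ≤ 1 / 12 * |y - z| := by
  have h1 := lower hy
  have h2 := lower hz
  have h3 := lower' hy
  have h4 := lower' hz
  have h5 := one_le_two_pow s
  have h6 : (0 : ℝ) < 4 ^ s := by positivity
  have e : (√(cc s + y) - √(cc s + z)) * (√(cc s + y) + √(cc s + z)) = y - z := by
    have e1 := Real.sq_sqrt (show 0 ≤ cc s + y by linarith)
    have e2 := Real.sq_sqrt (show 0 ≤ cc s + z by linarith)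
    nlinarith
  rw [← e, abs_mul]
  have h7 : 12 ≤ |√(cc s + y) + √(cc s + z)| := by
    refine le_trans ?_ (le_abs_self _)
    linarith
  have h8 := abs_nonneg (√(cc s + y) - √(cc s + z))
  nlinarith

lemma Xt_step (m : ℕ) : ∀ s b, |Xt m s b - Xt (m + 1) s b| ≤ RR s * (1 / 6) ^ m := by
  induction m with
  | zero =>
    intro s b
    have h := abs_Xt_le 1 s b
    have h0 : Xt 0 s b = 0 := rfl
    rw [pow_zero, mul_one, h0, zero_sub, abs_neg]
    exact h
  | succ m ih =>
    intro s b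
    rw [Xt, Xt, ← mul_sub, abs_mul, abs_sg, one_mul]
    refine (sqrt_diff (abs_Xt_le m _ _) (abs_Xt_le (m + 1) _ _)).trans ?_
    have h := ih (s + 1) (sh b)
    have e : RR (s + 1) = 2 * RR s := by unfold RR; ring
    rw [e] at h
    rw [pow_succ]
    nlinarith

/-- The nested root. -/
noncomputable def X (s : ℕ) (b : Om) : ℝ := limUnder atTop fun m => Xt m s b

lemma Xt_dist (s : ℕ) (b : Om) (m : ℕ) : dist (Xt m s b) (Xt (m + 1) s b) ≤ RR s * (1 / 6) ^ m := by
  rw [Real.dist_eq]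
  exact Xt_step m s b

lemma tendsto_X (s : ℕ) (b : Om) : Tendsto (fun m => Xt m s b) atTop (𝓝 (X s b)) :=
  (cauchySeq_of_le_geometric (1 / 6) (RR s) (by norm_num) (Xt_dist s b)).tendsto_limUnder

lemma Xt_X (s : ℕ) (b : Om) (m : ℕ) : dist (Xt m s b) (X s b) ≤ RR s * (1 / 6) ^ m / (1 - 1 / 6) :=
  dist_le_of_le_geometric_of_tendsto (1 / 6) (RR s) (by norm_num) (Xt_dist s b) (tendsto_X s b) m

lemma abs_X_le (s : ℕ) (b : Om) : |X s b| ≤ RR s :=
  le_of_tendsto (tendsto_X s b).abs (Eventually.of_forall fun m => abs_Xt_le m s b)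

lemma X_eq (s : ℕ) (b : Om) : X s b = sg (b 0) * √(cc s + X (s + 1) (sh b)) := by
  have h1 : Tendsto (fun m => Xt (m + 1) s b) atTop (𝓝 (X s b)) :=
    (tendsto_X s b).comp (tendsto_add_atTop_nat 1)
  have h2 : Tendsto (fun m => Xt (m + 1) s b) atTop
      (𝓝 (sg (b 0) * √(cc s + X (s + 1) (sh b)))) := by
    have h3 := (tendsto_X (s + 1) (sh b)).const_add (cc s)
    exact ((Real.continuous_sqrt.tendsto _).comp h3).const_mul (sg (b 0))
  exact tendsto_nhds_unique h1 h2

lemma pos_arg (s : ℕ) (b : Om) : 44 * 4 ^ s ≤ cc s + X (s + 1) b := lower' (abs_X_le _ _)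

lemma X_sq (s : ℕ) (b : Om) : X s b ^ 2 = cc s + X (s + 1) (sh b) := by
  have h := pos_arg s (sh b)
  have h6 : (0 : ℝ) < 4 ^ s := by positivity
  rw [X_eq, mul_pow, sg_sq, one_mul, Real.sq_sqrt (by linarith)]

lemma abs_X (s : ℕ) (b : Om) : |X s b| = √(cc s + X (s + 1) (sh b)) := by
  rw [X_eq, abs_mul, abs_sg, one_mul, abs_of_nonneg (Real.sqrt_nonneg _)]

lemma le_abs_X (s : ℕ) (b : Om) : 6 * 2 ^ s ≤ |X s b| := by
  rw [abs_X]
  exact lower (abs_X_le _ _)

lemma X_true {s : ℕ} {b : Om} (h : b 0 = true) : X s b = |X s b| := by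
  rw [abs_X, X_eq, h]
  simp [sg]

lemma X_false {s : ℕ} {b : Om} (h : b 0 = false) : X s b = -|X s b| := by
  rw [abs_X, X_eq, h]
  simp [sg]

lemma continuous_Xt (m : ℕ) : ∀ s, Continuous (Xt m s) := by
  induction m with
  | zero => intro s; exact continuous_const
  | succ m ih =>
    intro s
    have h1 : Continuous fun b : Om => sg (b 0) :=
      (continuous_of_discreteTopology : Continuous sg).comp (continuous_apply 0)
    have h2 : Continuous fun b : Om => √(cc s + Xt m (s + 1) (sh b)) :=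
      Real.continuous_sqrt.comp (continuous_const.add ((ih (s + 1)).comp continuous_sh))
    exact h1.mul h2

lemma continuous_X (s : ℕ) : Continuous (X s) := by
  have h : TendstoUniformly (fun m => Xt m s) (X s) atTop := by
    rw [Metric.tendstoUniformly_iff]
    intro ε hε
    have h1 : Tendsto (fun m : ℕ => RR s * (1 / 6 : ℝ) ^ m / (1 - 1 / 6)) atTop (𝓝 0) := by
      have h2 := tendsto_pow_atTop_nhds_zero_of_lt_one (r := (1 / 6 : ℝ)) (by norm_num)
        (by norm_num)
      have h3 := (h2.const_mul (RR s)).div_const (1 - 1 / 6)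
      rw [mul_zero, zero_div] at h3
      exact h3
    filter_upwards [h1.eventually_lt_const hε] with m hm b
    rw [dist_comm]
    exact (Xt_X s b m).trans_lt hm
  exact h.continuous (Frequently.of_forall fun m => continuous_Xt m s)

lemma sign_eq {s : ℕ} {b b' : Om} (h : X s b = X s b') : b 0 = b' 0 := by
  have h1 := le_abs_X s b
  have h2 := le_abs_X s b'
  have h3 := one_le_two_pow s
  cases hb : b 0 <;> cases hb' : b' 0
  · rfl
  · have e1 := X_false (s := s) hb
    have e2 := X_true (s := s) hb'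
    rw [h] at e1 h1
    linarith
  · have e1 := X_true (s := s) hb
    have e2 := X_false (s := s) hb'
    rw [h] at e1 h1
    linarith
  · rfl

lemma shift_eq {s : ℕ} {b b' : Om} (h : X s b = X s b') : X (s + 1) (sh b) = X (s + 1) (sh b') := by
  have h1 := X_sq s b
  have h2 := X_sq s b'
  rw [h] at h1
  linarith

lemma injective_X (s : ℕ) : Function.Injective (X s) := by
  have key : ∀ n : ℕ, ∀ (s : ℕ) (b b' : Om), X s b = X s b' → b n = b' n := by
    intro n
    induction n with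
    | zero => intro s b b' h; exact sign_eq h
    | succ n ih => intro s b b' h; exact ih (s + 1) (sh b) (sh b') (shift_eq h)
  intro b b' h
  funext n
  exact key n s b b' h

end Pool.Agent.WJ
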