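import Pool.Agent.WJ.Meas

/-!
# A Cantor set of nested square roots: the first digit
-/

set_option autoImplicit false

open Filter Topology MeasureTheory
open scoped ENNReal

namespace Pool.Agent.WJ

lemma measurable_cons (e : Bool) : Measurable (cons e) := by
  apply measurable_pi_lambda
  intro k
  cases k with
  | zero => exact measurable_const
  | succ k => exact measurable_pi_apply k

lemma measurable_cons2 : Measurable fun p : Bool × Om => cons p.1 p.2 := by
  apply measurable_pi_lambda
  intro k
  cases k with
  | zero => exact measurable_fst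
  | succ k => exact (measurable_pi_apply k).comp measurable_snd

variable (κ : Measure Bool) [IsProbabilityMeasure κ]

lemma bet_box (N : ℕ) (t : ℕ → Set Bool) :
    bet κ {b : Om | ∀ i < N, b i ∈ t i} = ∏ i ∈ Finset.range N, κ (t i) := by
  have h : {b : Om | ∀ i < N, b i ∈ t i} = Set.pi (Finset.range N : Set ℕ) t := by
    ext b
    simp [Set.mem_pi]
  rw [h]
  unfold bet
  exact Measure.infinitePi_pi _ (fun i _ => MeasurableSet.of_discrete)

lemma map_cons : (κ.prod (bet κ)).map (fun p : Bool × Om => cons p.1 p.2) = bet κ := by
  classical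
  have key : ∀ (N : ℕ) (t : ℕ → Set Bool),
      (κ.prod (bet κ)).map (fun p : Bool × Om => cons p.1 p.2) {b : Om | ∀ i < N + 1, b i ∈ t i} =
        ∏ i ∈ Finset.range (N + 1), κ (t i) := by
    intro N t
    have hm : MeasurableSet {b : Om | ∀ i < N + 1, b i ∈ t i} := by
      have h : {b : Om | ∀ i < N + 1, b i ∈ t i} = ⋂ i ∈ Finset.range (N + 1),
          (fun b : Om => b i) ⁻¹' t i := by
        ext b
        simp
      rw [h]
      exact Finset.measurableSet_biInter _ fun i _ =>
        (measurable_pi_apply i) MeasurableSet.of_discrete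
    rw [Measure.map_apply measurable_cons2 hm]
    have h : (fun p : Bool × Om => cons p.1 p.2) ⁻¹' {b : Om | ∀ i < N + 1, b i ∈ t i} =
        t 0 ×ˢ {b : Om | ∀ i < N, b i ∈ t (i + 1)} := by
      ext p
      simp only [Set.mem_preimage, Set.mem_ofPred_eq, Set.mem_prod]
      constructor
      · intro hp
        exact ⟨hp 0 (Nat.succ_pos N), fun i hi => hp (i + 1) (by omega)⟩
      · rintro ⟨h0, h1⟩ i hi
        cases i with
        | zero => exact h0
        | succ i => exact h1 i (by omega)
    rw [h, Measure.prod_prod, bet_box κ N fun i => t (i + 1), Finset.prod_range_succ', mul_comm]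
  have hfin : ∀ ν : Measure Om, (∀ (N : ℕ) (t : ℕ → Set Bool),
      ν {b : Om | ∀ i < N + 1, b i ∈ t i} = ∏ i ∈ Finset.range (N + 1), κ (t i)) → ν = bet κ := by
    intro ν hν
    unfold bet
    apply Measure.eq_infinitePi
    intro s t _
    obtain ⟨N, hN⟩ : ∃ N, ∀ i ∈ s, i < N := by
      refine ⟨s.sup id + 1, fun i hi => ?_⟩
      have := Finset.le_sup (f := id) hi
      simp only [id] at this
      omega
    let t' : ℕ → Set Bool := fun i => if i ∈ s then t i else Set.univ
    have h1 : Set.pi (s : Set ℕ) t = {b : Om | ∀ i < N + 1, b i ∈ t' i} := by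
      ext b
      simp only [Set.mem_pi, Finset.mem_coe, Set.mem_ofPred_eq, t']
      constructor
      · intro h i _
        split_ifs with hi
        · exact h i hi
        · trivial
      · intro h i hi
        have := h i (by have := hN i hi; omega)
        rw [if_pos hi] at this
        exact this
    rw [h1, hν]
    have h2 : ∀ i, κ (t' i) = if i ∈ s then κ (t i) else 1 := by
      intro i
      simp only [t']
      split_ifs
      · rfl
      · exact measure_univ
    simp only [h2]
    rw [Finset.prod_ite, Finset.prod_const_one, mul_one]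
    apply Finset.prod_congr _ fun _ _ => rfl
    ext i
    simp only [Finset.mem_filter, Finset.mem_range]
    constructor
    · exact fun h => h.2
    · intro h
      exact ⟨by have := hN i h; omega, h⟩
  exact hfin _ key

theorem lint_cons (f : Om → ℝ≥0∞) (hf : Measurable f) : ∫⁻ b, f b ∂(bet κ) =
    κ {true} * ∫⁻ b, f (cons true b) ∂(bet κ) + κ {false} * ∫⁻ b, f (cons false b) ∂(bet κ) := by
  conv_lhs => rw [← map_cons κ]
  have h1 : Measurable fun p : Bool × Om => f (cons p.1 p.2) := hf.comp measurable_cons2
  rw [lintegral_map hf measurable_cons2, lintegral_prod _ h1.aemeasurable,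
    lintegral_fintype, Fintype.sum_bool]
  ring

theorem integrable_cons (f : Om → ℝ) (hf : Integrable f (bet κ)) (e : Bool) (he : κ {e} ≠ 0) :
    Integrable (fun b => f (cons e b)) (bet κ) := by
  have h1 : Integrable (fun p : Bool × Om => f (cons p.1 p.2)) (κ.prod (bet κ)) := by
    have h2 := hf
    conv at h2 => rw [← map_cons κ]
    exact h2.comp_measurable measurable_cons2
  have h3 := h1.prod_right_ae
  have h4 : e ∈ {x : Bool | Integrable (fun y => f (cons x y)) (bet κ)} := by
    by_contra hne
    apply he
    refine measure_mono_null ?_ (ae_iff.1 h3)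
    rintro x rfl
    exact hne
  exact h4

theorem int_cons (f : Om → ℝ) (hf : Integrable f (bet κ)) : ∫ b, f b ∂(bet κ) =
    κ.real {true} * ∫ b, f (cons true b) ∂(bet κ) +
      κ.real {false} * ∫ b, f (cons false b) ∂(bet κ) := by
  have h2 := hf
  conv at h2 => rw [← map_cons κ]
  have h3 : Integrable (fun p : Bool × Om => f (cons p.1 p.2)) (κ.prod (bet κ)) :=
    h2.comp_measurable measurable_cons2
  conv_lhs => rw [← map_cons κ]
  rw [integral_map measurable_cons2.aemeasurable h2.aestronglyMeasurable, integral_prod _ h3,
    integral_fintype (by exact Integrable.of_finite), Fintype.sum_bool]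
  simp only [smul_eq_mul]

lemma ch_true : ch {true} = 2⁻¹ := by simp [ch]
lemma ch_false : ch {false} = 2⁻¹ := by simp [ch]
lemma cq_true : cq {true} = 4⁻¹ := by simp [cq]
lemma cq_false : cq {false} = 3 * 4⁻¹ := by simp [cq]

lemma ch_true_real : ch.real {true} = 1 / 2 := by
  rw [Measure.real, ch_true]
  simp

lemma ch_false_real : ch.real {false} = 1 / 2 := by
  rw [Measure.real, ch_false]
  simp

lemma cq_true_real : cq.real {true} = 1 / 4 := by
  rw [Measure.real, cq_true]
  simp

lemma cq_false_real : cq.real {false} = 3 / 4 := by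
  rw [Measure.real, cq_false]
  simp
  norm_num

end Pool.Agent.WJ
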