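import Pool.Agent.WJ.Code

/-!
# A Cantor set of nested square roots: product measures
-/

set_option autoImplicit false

open Filter Topology MeasureTheory
open scoped ENNReal

namespace Pool.Agent.WJ

/-- The digits with probability `1 / 4` of the sign `+`. -/
noncomputable def cq : Measure Bool :=
  (4 : ℝ≥0∞)⁻¹ • Measure.dirac true + (3 * (4 : ℝ≥0∞)⁻¹) • Measure.dirac false

/-- The fair digits. -/
noncomputable def ch : Measure Bool :=
  (2 : ℝ≥0∞)⁻¹ • Measure.dirac true + (2 : ℝ≥0∞)⁻¹ • Measure.dirac false

instance : IsProbabilityMeasure cq := by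
  constructor
  simp only [cq, Measure.coe_add, Measure.coe_smul, Pi.add_apply, Pi.smul_apply, measure_univ,
    smul_eq_mul, mul_one]
  have h : (4 : ℝ≥0∞)⁻¹ + 3 * 4⁻¹ = (1 + 3) * 4⁻¹ := by rw [add_mul, one_mul]
  rw [h]
  norm_num
  exact ENNReal.mul_inv_cancel (by norm_num) (by norm_num)

instance : IsProbabilityMeasure ch := by
  constructor
  simp only [ch, Measure.coe_add, Measure.coe_smul, Pi.add_apply, Pi.smul_apply, measure_univ,
    smul_eq_mul, mul_one]
  exact ENNReal.inv_two_add_inv_two

/-- The product measure on the codes. -/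
noncomputable def bet (κ : Measure Bool) : Measure Om := Measure.infinitePi fun _ => κ

instance (κ : Measure Bool) [IsProbabilityMeasure κ] : IsProbabilityMeasure (bet κ) := by
  unfold bet
  infer_instance

/-- The code with first digit `e`. -/
def cons (e : Bool) (b : Om) : Om := fun k => Nat.casesOn k e b

@[simp] lemma cons_zero (e : Bool) (b : Om) : cons e b 0 = e := rfl

@[simp] lemma cons_succ (e : Bool) (b : Om) (k : ℕ) : cons e b (k + 1) = b k := rfl

@[simp] lemma sh_cons (e : Bool) (b : Om) : sh (cons e b) = b := rfl

lemma cons_sh (b : Om) : cons (b 0) (sh b) = b := by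
  funext k
  cases k <;> rfl

/-- The law of the point `X s b`, as a measure on the complex plane. -/
noncomputable def law (κ : Measure Bool) (s : ℕ) : Measure ℂ := (bet κ).map fun b => (X s b : ℂ)

lemma continuous_XC (s : ℕ) : Continuous fun b : Om => (X s b : ℂ) :=
  Complex.continuous_ofReal.comp (continuous_X s)

lemma measurable_XC (s : ℕ) : Measurable fun b : Om => (X s b : ℂ) := (continuous_XC s).measurable

instance (κ : Measure Bool) [IsProbabilityMeasure κ] (s : ℕ) : IsProbabilityMeasure (law κ s) :=
  Measure.isProbabilityMeasure_map (measurable_XC s).aemeasurable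

/-- The Cantor set. -/
def KK : Set ℂ := Set.range fun b : Om => (X 0 b : ℂ)

end Pool.Agent.WJ
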